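import Pool.Agent.Lib.MP_6fdd0d_al.Model
import Pool.Agent.Lib.Halt56.TM0

/-!
# A finitely presented orthomodular lattice with unsolvable word problem
-/

namespace Pool.Agent.Results.MP_6fdd0d_al.UnsolvableWordProblem

open Pool.Agent.Lib.MP_6fdd0d_al Turing

section words

variable {n : ℕ} {Γ Λ : Type} [Inhabited Γ] [Inhabited Λ] (ι : Gen Γ Λ → Fin n)

set_option linter.unusedSectionVars false

/-- what is written behind the argument of a Sasaki projection -/
def suf (c : Term n) : List (Fin (n + 5)) := Fin.natAdd n 2 :: (c.word ++ c.word)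

/-- what is written before the argument of a Sasaki projection -/
def pre (n : ℕ) : List (Fin (n + 5)) := [Fin.natAdd n 3, Fin.natAdd n 4]

theorem word_sasT (c t : Term n) : (sasT c t).word = pre n ++ (t.word ++ suf c) := by
  simp [sasT, Term.word, suf, pre]

/-- what is written before the argument of a push -/
def pre4 (n : ℕ) : List (Fin (n + 5)) := pre n ++ (pre n ++ (pre n ++ pre n))

/-- what is written behind the argument of a push -/
def suf4 (k : Bool) (a : Option Γ) : List (Fin (n + 5)) :=
  suf (gT ι (.cst k (.g a))) ++ (suf (gT ι (.cst k .e)).compl ++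
    (suf (gT ι (.cst k .d)) ++ suf (gT ι (.cst k .e))))

theorem word_pushT (k : Bool) (a : Option Γ) (t : Term n) :
    (pushT ι k a t).word = pre4 n ++ (t.word ++ suf4 ι k a) := by
  simp [pushT, word_sasT, pre4, suf4]

theorem word_pushesT (k : Bool) (l : List (Option Γ)) (t : Term n) :
    (pushesT ι k l t).word =
      l.foldl (fun s a => pre4 n ++ (s ++ suf4 ι k a)) t.word := by
  induction l generalizing t with
  | nil => rfl
  | cons a l ih =>
    simp only [pushesT, List.foldl_cons] at ih ⊢
    rw [ih, word_pushT]

/-- the term of a configuration -/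
def cT (l r : List Γ) (x : Term n) : Term n :=
  pushesT ι false (l.map some ++ [none]) (pushesT ι true (r.map some ++ [none]) x)

theorem eval_cT {L : Type} [OrthomodularLattice L] (v : Fin n → L) (l r : List Γ) (x : Term n) :
    (cT ι l r x).eval v = C (v ∘ ι) l r (x.eval v) := by
  unfold cT C
  rw [eval_pushesT, eval_pushesT]

theorem primrec_cT [Primcodable Γ] [Finite Γ] (x : Term n) :
    Primrec (fun r : List Γ => (cT ι [] r x).word) := by
  have h1 : Primrec (fun r : List Γ => (pushesT ι true (r.map some ++ [none]) x).word) := by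
    have h2 : Primrec (fun r : List Γ => (r.map some ++ [none]).foldl
        (fun s a => pre4 n ++ (s ++ suf4 ι true a)) x.word) := by
      refine Primrec.list_foldl
        (h := fun (_ : List Γ) (p : List (Fin (n + 5)) × Option Γ) =>
          pre4 n ++ (p.1 ++ suf4 ι true p.2)) ?_ (Primrec.const _) ?_
      · exact Primrec.list_append.comp
          (Primrec.list_map Primrec.id (Primrec.option_some.comp Primrec.snd).to₂)
          (Primrec.const _)
      · have e1 : Primrec (fun q : List Γ × (List (Fin (n + 5)) × Option Γ) => q.2.1) :=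
          Primrec.fst.comp Primrec.snd
        have e2 : Primrec (fun q : List Γ × (List (Fin (n + 5)) × Option Γ) =>
            suf4 ι true q.2.2) :=
          (Primrec.dom_finite (fun a : Option Γ => suf4 ι true a)).comp
            (Primrec.snd.comp Primrec.snd)
        exact (Primrec.list_append.comp (Primrec.const _) (Primrec.list_append.comp e1 e2)).to₂
    exact h2.of_eq fun r => (word_pushesT ι true _ _).symm
  have h3 : ∀ r : List Γ, (cT ι [] r x).word = pre4 n ++
      ((pushesT ι true (r.map some ++ [none]) x).word ++ suf4 ι false none) := by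
    intro r
    unfold cT
    rw [word_pushesT]
    rfl
  refine Primrec.of_eq ?_ fun r => (h3 r).symm
  exact Primrec.list_append.comp (Primrec.const _) (Primrec.list_append.comp h1 (Primrec.const _))

end words

/-- There is a finite presentation of an orthomodular lattice whose word problem is unsolvable. -/
theorem result : ∃ (n : ℕ) (R : List (Term n × Term n)), ¬ WordProblemSolvable R := by
  obtain ⟨g, l, M, inp, hinp, hund⟩ := Pool.Agent.Lib.Halt56.exists_undecidable_tm0
  let ι : Gen (Fin (g + 1)) (Fin (l + 1)) ≃ Fin (Fintype.card (Gen (Fin (g + 1)) (Fin (l + 1)))) :=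
    Fintype.equivFin _
  refine ⟨_, (Finset.univ : Finset (Rl (Fin (g + 1)) (Fin (l + 1)))).toList.map
    (Rl.pair ι M), ?_⟩
  rintro ⟨f, hf, hspec⟩
  apply hund
  have hsat : ∀ (L : Type) [OrthomodularLattice L] (v : Fin _ → L),
      (∀ p ∈ (Finset.univ : Finset (Rl (Fin (g + 1)) (Fin (l + 1)))).toList.map
        (Rl.pair ι M), p.1.eval v = p.2.eval v) ↔ Sat M (v ∘ ι) := by
    intro L _ v
    rw [← sat_iff]
    simp
  have key : ∀ k, Eqv ((Finset.univ : Finset (Rl (Fin (g + 1)) (Fin (l + 1)))).toList.map
      (Rl.pair ι M)) (cT ι [] (inp k) (gT ι (.st (.rd true default))))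
      (cT ι [] [] (gT ι (.st .halt))) ↔ (TM0.eval M (inp k)).Dom := by
    intro k
    constructor
    · intro h
      have hw : ((mw M) ∘ ι.symm) ∘ ι = mw M := by
        funext x
        simp
      have h1 := Eqv.eval_eq _ ((mw M) ∘ ι.symm) ((hsat _ _).mpr (by rw [hw]; exact mw_sat M)) h
      rw [eval_cT, eval_cT] at h1
      have h2 : ∀ x, (gT ι x).eval ((mw M) ∘ ι.symm) = mw M x := by
        intro x
        simp [gT, Term.eval]
      rw [h2, h2, hw] at h1
      exact halts_of_C M h1
    · intro h
      rw [eqv_iff]
      intro L _ v hv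
      rw [hsat] at hv
      rw [eval_cT, eval_cT]
      exact C_init hv (inp k) h
  have hcomp : Computable (fun k => f ((cT ι [] (inp k) (gT ι (.st (.rd true default)))).word,
      (cT ι [] [] (gT ι (.st .halt))).word)) :=
    hf.comp (Computable.pair ((primrec_cT ι _).to_comp.comp hinp) (Computable.const _))
  refine ComputablePred.computable_iff.mpr ⟨_, hcomp, ?_⟩
  funext k
  rw [← key k, ← hspec]

end Pool.Agent.Results.MP_6fdd0d_al.UnsolvableWordProblem
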